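import Pool.Agent.helper58.ZB.SpecN
import Pool.Agent.helper59.BR.SpecH

/-! Row zn:PVB (invariance of the contributions under Galois automorphisms, all primes). The first lemma is an adaptation of helper16/LE/GP2.lean. -/

set_option autoImplicit false

namespace Pool.Agent.GB

open Pool.Agent.helper58.DC Pool.Agent.DI Pool.Agent.GR Pool.Agent.OB Pool.Agent.DR Pool.Agent.FI Pool.Agent.FI3 Pool.Agent.FI4 Pool.Agent.LE Pool.Agent.BR

theorem PVB_gal {p : ℕ} (hp : p.Prime) {G : Type} [Group G] [Finite G] {m : ℕ} (hm : GmB p (Nat.card G) m) {ψ : G → ℂ} (hψ : PR m ψ)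
    {u v : G} (huv : u * v = v * u) (hu : PEl p u) (hv : PReg p v) {s : ℕ} (hs : s ≡ 1 [MOD p ^ bb p]) : ψ (u ^ s * v) = ψ (u * v) := by
  obtain ⟨k, hk⟩ := hu
  obtain ⟨j, hj⟩ := hm.gen s hs
  have hPR : ∀ (i : ℕ) (g : G), ψ (g ^ (m ^ i)) = ψ g := by
    intro i
    induction i with
    | zero => intro g; rw [pow_zero, pow_one]
    | succ i ih => intro g; rw [pow_succ, pow_mul, hψ, ih]
  have hov : orderOf v ∣ Nat.card G := orderOf_dvd_natCard v
  have hou : orderOf u ∣ Nat.card G := orderOf_dvd_natCard u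
  obtain ⟨k', -, hk'⟩ := (Nat.dvd_prime_pow hp).1 (orderOf_dvd_of_pow_eq_one hk)
  have h1 : u ^ (m ^ j) = u ^ s := by
    rw [pow_eq_pow_iff_modEq, hk']
    exact hj k' (hk' ▸ hou)
  have h2 : v ^ (m ^ j) = v := by
    have h3 : v ^ (m ^ j) = v ^ 1 := by
      rw [pow_eq_pow_iff_modEq]
      have h4 := (hm.reg (orderOf v) hov hv).pow j
      rwa [one_pow] at h4
    rwa [pow_one] at h3
  have h3 : (u * v) ^ (m ^ j) = u ^ s * v := by
    rw [(show Commute u v from huv).mul_pow, h1, h2]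
  rw [← h3, hPR]

theorem PVB_cz {p : ℕ} (hp : p.Prime) {G : Type} [Group G] [Finite G] {u : G} (hu : PEl p u) {s : ℕ} (hs : s ≡ 1 [MOD p ^ bb p]) :
    Cz (⊤ : Subgroup G) (u ^ s) = Cz (⊤ : Subgroup G) u := by
  obtain ⟨k, hk⟩ := hu
  have h0 : p ∣ p ^ bb p := by
    refine dvd_pow_self p ?_
    unfold bb
    split_ifs <;> norm_num
  have h1 : s ≡ 1 [MOD p] := hs.of_dvd h0
  have h2 : Nat.Coprime s p := by
    refine ((Nat.Prime.coprime_iff_not_dvd hp).2 fun h => ?_).symm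
    have h3 : p ∣ 1 := (h1.dvd_iff dvd_rfl).1 h
    exact hp.one_lt.ne' (Nat.dvd_one.1 h3)
  have h3 : Nat.Coprime s (orderOf u) := (h2.pow_right k).coprime_dvd_right (orderOf_dvd_of_pow_eq_one hk)
  obtain ⟨t, ht⟩ := exists_pow_eq_self_of_coprime h3
  ext g
  have e1 : ∀ w : G, g ∈ Cz (⊤ : Subgroup G) w ↔ Commute g w := by
    intro w
    unfold Cz
    rw [Subgroup.mem_inf, Subgroup.mem_centralizer_singleton_iff]
    exact ⟨fun h => h.2, fun h => ⟨Subgroup.mem_top g, h⟩⟩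
  rw [e1, e1]
  refine ⟨fun h => ?_, fun h => h.pow_right s⟩
  have h4 := h.pow_right t
  rwa [ht] at h4

theorem PVB_az {p : ℕ} (hp : p.Prime) {G : Type} [Group G] [Finite G] {m : ℕ} (hm : GmB p (Nat.card G) m) {ψ : G → ℂ} (hψ : PR m ψ)
    {u : G} (hu : PEl p u) {s : ℕ} (hs : s ≡ 1 [MOD p ^ bb p]) (η : G → ℂ) :
    az p (Cz (⊤ : Subgroup G) u) η ψ (u ^ s) = az p (Cz (⊤ : Subgroup G) u) η ψ u := by
  unfold az
  congr 1
  refine finsum_mem_congr rfl fun v hv => ?_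
  have h1 : u * v = v * u := by
    have h2 := hv.1
    unfold Cz at h2
    rw [Subgroup.mem_inf, Subgroup.mem_centralizer_singleton_iff] at h2
    exact h2.2.symm
  rw [PVB_gal hp hm hψ h1 hu hv.2 hs]

theorem PVB (hHGR : Pool.Agent.BR.HGR_stmt) : PVB_stmt := by
  intro p M hS G _ _ θ m hm ψ hψ hψm ψ' hψ' hψm' u hu s hs
  rw [hHGR p M hS G θ (u ^ s) ψ hψ ψ' hψ', hHGR p M hS G θ u ψ hψ ψ' hψ', PVB_cz hS.pr hu hs]
  refine finsum_mem_congr rfl fun η _ => ?_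
  rw [PVB_az hS.pr hm hψm hu hs, PVB_az hS.pr hm hψm' hu hs]

end Pool.Agent.GB
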