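import Pool.Agent.helper7.ZB.SpecT

/-! Row zb:ZUQ (unit classes from elements of `E`) of project ZB. -/

set_option autoImplicit false

namespace Pool.Agent.ZB

open Pool.Agent.helper58.DC Pool.Agent.DI Pool.Agent.GR Pool.Agent.OB Pool.Agent.DR Pool.Agent.FI Pool.Agent.FI3 Pool.Agent.FI4 Pool.Agent.FI4I Pool.Agent.LE Pool.Agent.L5 Pool.Agent.NAB

theorem ZUQ (hZE1 : ZE1_stmt) (hZE2 : ZE2_stmt) (hZE3 : ZE3_stmt) (hDUN : Pool.Agent.FI.DUN_stmt) (hNDG : Pool.Agent.NAB.NDG_stmt)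
    (hTPR : Pool.Agent.FI.TPR_stmt) : ZUQ_stmt := by
  intro p κ M hS G _ _ χ hχ D x hD hK R y hy hyR
  obtain ⟨e1, -, e3, -⟩ := hZE1 p hS.pr κ G D hK
  obtain ⟨z, hz, hzc, hzy⟩ := e3 y hy
  have hyp : y ^ p = 1 := ((e1 y).1 hy).1
  have hy1 : y ≠ 1 := fun h => hyR (h ▸ R.one_mem)
  haveI : Fact p.Prime := ⟨hS.pr⟩
  have hz1 : z ^ p ^ (κ.s + κ.w + 1) = 1 := by
    rw [pow_succ, pow_mul, hzy, hyp]
  have hod : orderOf z = p ^ (κ.s + κ.w + 1) := orderOf_eq_prime_pow (by rw [hzy]; exact hy1) hz1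
  obtain ⟨t1, -⟩ := hTPR p M hS G
  have hχ' : χ ∈ IrrOn (⊤ : Subgroup G) := by
    rw [t1]
    exact hχ
  refine ⟨z, hz, hzc, hzy, ?_⟩
  refine ⟨⟨_, hz1⟩, hD.reg, ?_, Subgroup.mem_top z, Subgroup.mem_top x, hod, ?_, ?_⟩
  · have h1 := (hD.le hz).2
    exact Subgroup.mem_centralizer_singleton_iff.1 h1
  · exact hNDG p M hS G ⊤ χ hχ' D x hD z hz hzc
  · intro D' y' hD' d hd
    obtain ⟨l, -, hl⟩ := (hDUN p M hS G ⊤ χ hχ' D x hD).1 D' y' hD'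
    have h1 : KZ p κ (cjS l D) := ((hZE2 p hS.pr κ G D hK).2.2 l).1
    have h2 : cjS l D = D' := hl
    rw [h2] at h1
    exact hZE3 p hS.pr κ G D' h1 d hd

end Pool.Agent.ZB
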